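import Pool.Agent.H974R2.Basic
import Pool.Agent.H35R3.Reimer

/-!
Reimer's inequality for the finite product measure at `p = 1/2`.
-/

set_option autoImplicit false

namespace Pool.Agent.TH987.FA

open Finset

/-- the subset of `S` described by a point of the cube -/
def Fof {E : Type*} [DecidableEq E] (S : Finset E) (x : {e // e ∈ S} → Bool) : Finset E :=
  (S.attach.filter fun i => x i = true).map (Function.Embedding.subtype _)

theorem mem_Fof {E : Type*} [DecidableEq E] {S : Finset E} {x : {e // e ∈ S} → Bool} {e : E} :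
    e ∈ Fof S x ↔ ∃ h : e ∈ S, x ⟨e, h⟩ = true := by
  unfold Fof
  simp

theorem Fof_sub {E : Type*} [DecidableEq E] (S : Finset E) (x : {e // e ∈ S} → Bool) :
    Fof S x ⊆ S := fun _ h => (mem_Fof.mp h).1

open Classical in
theorem Pr_half {E : Type*} [DecidableEq E] (S : Finset E) (A : Finset E → Prop) :
    H974.Pr (fun _ => (1/2:ℝ)) S A =
      ((Finset.univ.filter fun x : {e // e ∈ S} → Bool => A (Fof S x)).card : ℝ) *
        (1/2) ^ S.card := by
  unfold H974.Pr H974.Ex
  have h1 : ∀ F ∈ S.powerset, (∏ e ∈ F, (1/2:ℝ)) * (∏ e ∈ S \ F, (1 - 1/2:ℝ)) *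
      H974.ind (A F) = (if A F then (1:ℝ) else 0) * (1/2) ^ S.card := by
    intro F hF
    have hFS := mem_powerset.mp hF
    have e1 : (1 - 1/2 : ℝ) = 1/2 := by norm_num
    rw [e1, prod_const, prod_const, ← pow_add, card_sdiff_of_subset hFS,
      Nat.add_sub_cancel' (card_le_card hFS)]
    have e2 : H974.ind (A F) = if A F then (1:ℝ) else 0 := by
      by_cases h : A F
      · rw [H974.ind_of h, if_pos h]
      · unfold H974.ind
        simp [h]
    rw [e2, mul_comm]
  rw [sum_congr rfl h1, ← sum_mul]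
  congr 1
  rw [card_filter]
  push_cast
  refine (sum_bij' (fun x _ => Fof S x) (fun F _ => fun i => decide (i.1 ∈ F)) ?_ ?_ ?_ ?_ ?_).symm
  · intro x _
    exact mem_powerset.mpr (Fof_sub S x)
  · intro F _
    exact mem_univ _
  · intro x _
    funext i
    by_cases h : x i = true
    · rw [h, decide_eq_true_eq]
      exact mem_Fof.mpr ⟨i.2, h⟩
    · rw [Bool.not_eq_true] at h
      rw [h, decide_eq_false_iff_not]
      intro h2
      obtain ⟨h3, h4⟩ := mem_Fof.mp h2
      rw [h] at h4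
      exact absurd h4 (by decide)
  · intro F hF
    ext e
    rw [mem_Fof]
    constructor
    · rintro ⟨h3, h4⟩
      exact decide_eq_true_eq.mp h4
    · intro h
      exact ⟨mem_powerset.mp hF h, decide_eq_true_eq.mpr h⟩
  · intro x _
    rfl

open Classical in
theorem rei {E : Type*} [DecidableEq E] (S : Finset E) (A B C : Finset E → Prop)
    (h : ∀ F : Finset E, F ⊆ S → C F → ∃ K : Finset E,
      (∀ G : Finset E, G ⊆ S → G ∩ K = F ∩ K → A G) ∧
      (∀ G : Finset E, G ⊆ S → G \ K = F \ K → B G)) :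
    H974.Pr (fun _ => (1/2:ℝ)) S C ≤
      H974.Pr (fun _ => (1/2:ℝ)) S A * H974.Pr (fun _ => (1/2:ℝ)) S B := by
  rw [Pr_half, Pr_half, Pr_half]
  have key := H35R3.reimer
    (Finset.univ.filter fun x : {e // e ∈ S} → Bool => A (Fof S x))
    (Finset.univ.filter fun x : {e // e ∈ S} → Bool => B (Fof S x))
    (Finset.univ.filter fun x : {e // e ∈ S} → Bool => C (Fof S x)) (by
      intro x hx
      obtain ⟨K, hK1, hK2⟩ := h (Fof S x) (Fof_sub S x) (mem_filter.mp hx).2
      refine ⟨Finset.univ.filter fun i => i.1 ∈ K, ?_, ?_⟩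
      · intro y hy
        rw [mem_filter]
        refine ⟨mem_univ _, hK1 _ (Fof_sub S y) ?_⟩
        ext e
        rw [mem_inter, mem_inter, mem_Fof, mem_Fof]
        constructor
        · rintro ⟨⟨h1, h2⟩, h3⟩
          refine ⟨⟨h1, ?_⟩, h3⟩
          rw [← hy ⟨e, h1⟩ (mem_filter.mpr ⟨mem_univ _, h3⟩)]
          exact h2
        · rintro ⟨⟨h1, h2⟩, h3⟩
          refine ⟨⟨h1, ?_⟩, h3⟩
          rw [hy ⟨e, h1⟩ (mem_filter.mpr ⟨mem_univ _, h3⟩)]
          exact h2
      · intro y hy
        rw [mem_filter]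
        refine ⟨mem_univ _, hK2 _ (Fof_sub S y) ?_⟩
        ext e
        rw [mem_sdiff, mem_sdiff, mem_Fof, mem_Fof]
        constructor
        · rintro ⟨⟨h1, h2⟩, h3⟩
          refine ⟨⟨h1, ?_⟩, h3⟩
          rw [← hy ⟨e, h1⟩ (fun h4 => h3 (mem_filter.mp h4).2)]
          exact h2
        · rintro ⟨⟨h1, h2⟩, h3⟩
          refine ⟨⟨h1, ?_⟩, h3⟩
          rw [hy ⟨e, h1⟩ (fun h4 => h3 (mem_filter.mp h4).2)]
          exact h2)
  have hc : Fintype.card {e // e ∈ S} = S.card := Fintype.card_coe S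
  rw [hc] at key
  have key' : ((Finset.univ.filter fun x : {e // e ∈ S} → Bool => C (Fof S x)).card : ℝ) *
      2 ^ S.card ≤ ((Finset.univ.filter fun x : {e // e ∈ S} → Bool => A (Fof S x)).card : ℝ) *
      ((Finset.univ.filter fun x : {e // e ∈ S} → Bool => B (Fof S x)).card : ℝ) := by
    exact_mod_cast key
  have e2 : (2:ℝ) ^ S.card * (1/2) ^ S.card = 1 := by
    rw [← mul_pow]
    norm_num
  have hp : (0:ℝ) ≤ (1/2) ^ S.card * (1/2) ^ S.card := by positivity
  calc ((Finset.univ.filter fun x : {e // e ∈ S} → Bool => C (Fof S x)).card : ℝ) *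
        (1/2) ^ S.card
      = (((Finset.univ.filter fun x : {e // e ∈ S} → Bool => C (Fof S x)).card : ℝ) *
        2 ^ S.card) * ((1/2) ^ S.card * (1/2) ^ S.card) := by
        rw [mul_assoc, ← mul_assoc (2 ^ S.card), e2, one_mul]
    _ ≤ _ := mul_le_mul_of_nonneg_right key' hp
    _ = _ := by ring

end Pool.Agent.TH987.FA
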